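import Pool.Agent.Work.MP_3d425c_gt.Cy.U3

/-! Co-orientable taut foliations whose leaves have cyclic stabilisers (planes and annuli) give
left orders on fundamental groups of hyperbolic type. -/

namespace Pool.Agent.Work.MP_3d425c_gt.Variants.CyclicLeafFoliations
open Pool.Agent.Work.MP_3d425c_gt.Cy

theorem result {M Y L G : Type*} [TopologicalSpace M] [TopologicalSpace Y] [TopologicalSpace L]
    [SimplyConnectedSpace Y] [LocallyPathConnectedSpace Y] [TopologicalSpace.SeparableSpace Y]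
    [Group G] [MulAction G Y] [MulAction G L] (p : Y → M) (hp : IsQuotientCoveringMap p G)
    (tf : ∀ a : G, a ≠ 1 → ¬ IsOfFinOrder a)
    (cent : ∀ a : G, a ≠ 1 → IsCyclic (Subgroup.centralizer ({a} : Set G)))
    (big : ∀ E : Subgroup G, E.FG → IsCyclic E ∨ E.FiniteIndex ∨
      ∃ f : E →* Multiplicative (ℤ × ℤ), Function.Surjective f)
    (q : Y → L) (A : Set (ℝ → L)) (hq : Leaves G q A) (taut : ∀ x, ∃ g : G, Above A x (g • x))
    (cyc : ∀ x : L, IsCyclic (MulAction.stabilizer G x)) (m : M) :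
    Nontrivial (FundamentalGroup M m) ∧
      ∃ r : FundamentalGroup M m → FundamentalGroup M m → Prop,
        IsStrictTotalOrder _ r ∧ ∀ a b c, r a b ↔ r (c * a) (c * b) :=
  main2 p hp tf cent big q A hq taut cyc m

/-- The hypotheses can be satisfied (the circle foliated by points). -/
theorem nonvacuous : ∃ (G : Type) (_ : Group G) (_ : MulAction G ℝ) (p : ℝ → AddCircle (1 : ℝ))
    (A : Set (ℝ → ℝ)), IsQuotientCoveringMap p G ∧ (∀ a : G, a ≠ 1 → ¬ IsOfFinOrder a) ∧
      IsCyclic G ∧ Leaves G (id : ℝ → ℝ) A ∧ ∀ x, ∃ g : G, Above A x (g • x) := by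
  refine ⟨Multiplicative (AddSubgroup.zmultiples (1 : ℝ)), inferInstance, inferInstance, _,
    {c | ∃ a : ℝ, c = fun t => a + t}, (AddCircle.isAddQuotientCoveringMap_coe 1).toMultiplicative,
    fun a ha h => ha h.eq_one', inferInstance, ⟨IsOpenQuotientMap.id, fun x => ?_, fun _ _ => rfl,
      ?_, fun x => ⟨_, ⟨x, rfl⟩, 0, by simp⟩, ?_, ?_⟩, fun x => ?_⟩
  · exact Set.Subsingleton.isPreconnected (by simp)
  · rintro c ⟨a, rfl⟩
    exact (Homeomorph.addLeft a).isOpenEmbedding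
  · rintro g c ⟨a, rfl⟩
    exact ⟨(g.toAdd : ℝ) + a, funext fun t => (add_assoc _ _ _).symm⟩
  · rintro c ⟨a, rfl⟩ d ⟨b, rfl⟩ s t e
    refine Filter.Eventually.of_forall fun u v e' => ?_
    constructor <;> intro h <;> linarith
  · refine ⟨Multiplicative.ofAdd ⟨1, AddSubgroup.mem_zmultiples 1⟩,
      .single ⟨_, ⟨x, rfl⟩, 0, 1, zero_lt_one, by simp, add_comm _ _⟩⟩

end Pool.Agent.Work.MP_3d425c_gt.Variants.CyclicLeafFoliations
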