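import Pool.Agent.Work.MP_3d425c_gt.Fn.Hyp

/-! A closed hyperbolic three-manifold with a co-orientable taut foliation has left-orderable
fundamental group. -/

namespace Pool.Agent.Work.MP_3d425c_gt.Variants.TautLeftOrder
open Pool.Agent.Work.MP_3d425c_gt
open scoped Manifold ContDiff

theorem result {M : Type} [TopologicalSpace M] [ChartedSpace (EuclideanSpace ℝ (Fin 3)) M]
    [IsManifold 𝓘(ℝ, EuclideanSpace ℝ (Fin 3)) ∞ M] [CompactSpace M] [T2Space M]
    [ConnectedSpace M] (m : M)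
    (ρ : FundamentalGroup M m →* Matrix.ProjectiveSpecialLinearGroup (Fin 2) ℂ) (hρ : Lt.Lat ρ)
    (A : Set (OpenPartialHomeomorph M ((ℝ × ℝ) × ℝ))) (hA : Sm.Foliation A) (hT : Sm.Taut A) :
    Nontrivial (FundamentalGroup M m) ∧
      ∃ r : FundamentalGroup M m → FundamentalGroup M m → Prop,
        IsStrictTotalOrder _ r ∧ ∀ a b c, r a b ↔ r (c * a) (c * b) :=
  Fn.main_lat m ρ hρ hA hT

end Pool.Agent.Work.MP_3d425c_gt.Variants.TautLeftOrder
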